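import Pool.Agent.H.MP_aefbf4_co.D

namespace Pool.Agent.H.MP_aefbf4_co
open Finset

variable {V E : Type} [DecidableEq E]

def st (F : Finset E) (r : ℕ → Finset E → Finset E → Finset E → Finset E) :
    List (Finset E) → Finset E × Finset E
  | [] => (F, ∅)
  | x :: l => ((st F r l).1 ∪ x, (st F r l).2 ∪ r l.length (st F r l).1 (st F r l).2 x)

def sg (F : Finset E) (r : ℕ → Finset E → Finset E → Finset E → Finset E) :
    List (Finset E) → Finset E
  | [] => ∅
  | x :: l => r l.length (st F r l).1 (st F r l).2 x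

theorem pos_sg (F : Finset E) (r : ℕ → Finset E → Finset E → Finset E → Finset E) (l) :
    pos F (sg F r) l = st F r l := by
  induction l with
  | nil => rfl
  | cons x l ih => simp only [pos, st, sg, ih]

omit [DecidableEq E] in
theorem hist_len (a : ℕ → Finset E) (n : ℕ) : (hist a n).length = n := by
  induction n with
  | zero => rfl
  | succ n ih => simp [hist, ih]

theorem bw (s t : E → V) (p q : ℕ) (v : V) (F : Finset E) (P : ℕ → Finset E → Finset E → Prop)
    (K : ℕ) (h0 : ∀ M B, P K M B → (Comp s t B v).Finite)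
    (hs : ∀ k < K, ∀ M B, P k M B → ∀ a, Legal p a M B →
      ∃ b, Legal q b (M ∪ a) B ∧ P (k + 1) (M ∪ a) (B ∪ b))
    (hK : P 0 F ∅) : BreakerWins s t p q v F := by
  classical
  have : ∀ k M B a, ∃ b, k < K → P k M B → Legal p a M B →
      Legal q b (M ∪ a) B ∧ P (k + 1) (M ∪ a) (B ∪ b) := by
    intro k M B a
    by_cases h : k < K ∧ P k M B ∧ Legal p a M B
    · obtain ⟨b, hb⟩ := hs k h.1 M B h.2.1 a h.2.2
      exact ⟨b, fun _ _ _ => hb⟩
    · exact ⟨∅, fun x y z => (h ⟨x, y, z⟩).elim⟩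
  choose r hr using this
  refine ⟨sg F r, fun a ha => ?_⟩
  simp only [pos_sg] at ha ⊢
  have key : ∀ n ≤ K, P n (st F r (hist a n)).1 (st F r (hist a n)).2 := by
    intro n
    induction n with
    | zero => exact fun _ => hK
    | succ n ih =>
      intro hn
      have := (hr n _ _ (a n) (by omega) (ih (by omega)) (ha n)).2
      simpa only [hist, st, hist_len] using this
  refine ⟨K, fun k hk => ?_, h0 _ _ (key K le_rfl)⟩
  have := (hr k _ _ (a k) hk (key k hk.le) (ha k)).1
  simpa only [hist, sg, hist_len] using this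

def hh (F : Finset E) (σ : List (Finset E) → Finset E) (m : Finset E → Finset E → Finset E) :
    ℕ → List (Finset E)
  | 0 => []
  | n + 1 => m (pos F σ (hh F σ m n)).1 (pos F σ (hh F σ m n)).2 :: hh F σ m n

theorem pad [Infinite E] (k : ℕ) (c M B : Finset E) (hc : (c \ M).card ≤ k) (hd : Disjoint c B) :
    ∃ a, Legal k a M B ∧ c ⊆ M ∪ a := by
  obtain ⟨u, hu, hu2⟩ := (M ∪ B ∪ c).finite_toSet.infinite_compl.exists_subset_card_eq
    (k - (c \ M).card)
  have hu' : ∀ x ∈ u, x ∉ M ∧ x ∉ B ∧ x ∉ c := fun x hx => by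
    have := hu hx
    simp only [coe_union, Set.mem_compl_iff, Set.mem_union, mem_coe, not_or] at this
    tauto
  refine ⟨(c \ M) ∪ u, ⟨?_, ?_⟩, ?_⟩
  · rw [card_union_of_disjoint, hu2]; · omega
    rw [disjoint_left]; intro x hx hx'; exact (hu' x hx').2.2 (mem_sdiff.1 hx).1
  · rw [disjoint_left] at hd ⊢
    intro x hx hx'
    have := hu' x
    have := @hd x
    simp only [mem_union, mem_sdiff] at hx hx'
    tauto
  · intro x hx
    simp only [mem_union, mem_sdiff]
    tauto

theorem mw [Infinite E] (s t : E → V) (p q : ℕ) (v : V) (F : Finset E)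
    (Q : Finset E → Finset E → Prop)
    (h0 : ∀ M B, Q M B → ¬ (Comp s t B v).Finite)
    (hs : ∀ M B, Q M B → ∃ a, Legal p a M B ∧ ∀ b, Legal q b (M ∪ a) B → Q (M ∪ a) (B ∪ b))
    (hK : Q F ∅) : ¬ BreakerWins s t p q v F := by
  rintro ⟨σ, hσ⟩
  have : ∀ M B, ∃ a, Legal p a M B ∧ (Q M B → ∀ b, Legal q b (M ∪ a) B → Q (M ∪ a) (B ∪ b)) := by
    intro M B
    by_cases h : Q M B
    · obtain ⟨a, h1, h2⟩ := hs M B h
      exact ⟨a, h1, fun _ => h2⟩
    · obtain ⟨a, h1, -⟩ := pad p ∅ M B (by simp) (by simp)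
      exact ⟨a, h1, fun x => (h x).elim⟩
  choose m hm using this
  set a : ℕ → Finset E := fun n => m (pos F σ (hh F σ m n)).1 (pos F σ (hh F σ m n)).2 with ha
  have e : ∀ n, hist a n = hh F σ m n := by
    intro n
    induction n with
    | zero => rfl
    | succ n ih => rw [hist, hh, ih]
  obtain ⟨n, h1, h2⟩ := hσ a (fun n => by rw [e]; exact (hm _ _).1)
  have key : ∀ k ≤ n, Q (pos F σ (hist a k)).1 (pos F σ (hist a k)).2 := by
    intro k
    induction k with
    | zero => exact fun _ => hK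
    | succ k ih =>
      intro hk
      have h3 := h1 k (by omega)
      have h4 := ih (by omega)
      have h5 : a k = m (pos F σ (hist a k)).1 (pos F σ (hist a k)).2 := by rw [e]
      have := (hm _ _).2 h4 _ (h5 ▸ h3)
      rw [← h5] at this
      exact this
  exact h0 _ _ (key n le_rfl) h2

theorem topq {α : Type} [DecidableEq α] (w : α → ℕ) (S : Finset α) (g : ℕ) :
    ∃ T ⊆ S, T.card ≤ g ∧ (T = S ∨ T.card = g) ∧ ∀ a ∈ T, ∀ b ∈ S \ T, w b ≤ w a := by
  induction g with
  | zero => exact ⟨∅, by simp, by simp, by simp, by simp⟩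
  | succ g ih =>
    obtain ⟨T, h1, h2, h3, h4⟩ := ih
    rcases (S \ T).eq_empty_or_nonempty with h | h
    · exact ⟨T, h1, by omega, Or.inl (h1.antisymm (sdiff_eq_empty_iff_subset.1 h)), h4⟩
    · obtain ⟨x, hx, hm⟩ := exists_max_image _ w h
      have hx' := mem_sdiff.1 hx
      have hT : T.card = g := h3.resolve_left (fun e => hx'.2 (e ▸ hx'.1))
      refine ⟨insert x T, insert_subset hx'.1 h1, by rw [card_insert_of_notMem hx'.2]; omega,
        Or.inr (by rw [card_insert_of_notMem hx'.2]; omega), fun a ha b hb => ?_⟩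
      have hb' : b ∈ S \ T := by
        simp only [mem_sdiff, mem_insert, not_or] at hb ⊢; tauto
      rcases mem_insert.1 ha with rfl | ha
      · exact hm b hb'
      · exact h4 a ha b hb'

theorem avg {α : Type} [DecidableEq α] (w : α → ℕ) (S : Finset α) (g m I : ℕ)
    (hc : S.card ≤ g + m) (hI : ∑ u ∈ S, w u ≤ I) :
    ∃ T ⊆ S, T.card ≤ g ∧ (S \ T).card ≤ m ∧ (g + m) * ∑ u ∈ S \ T, w u ≤ m * I ∧
      (∀ b ∈ S \ T, (g + 1) * w b ≤ I) ∧
      ∀ b ∈ S \ T, ∀ c ∈ S \ T, b ≠ c → (g + 2) * (w b + w c) ≤ 2 * I := by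
  obtain ⟨T, h1, h2, h3, h4⟩ := topq w S g
  refine ⟨T, h1, h2, ?_⟩
  rcases h3 with rfl | h3
  · simp
  have hm : (S \ T).card ≤ m := by rw [card_sdiff_of_subset h1]; omega
  have hs := sum_sdiff (f := w) h1
  have h5 : ∀ b ∈ S \ T, g * w b ≤ ∑ u ∈ T, w u := fun b hb => by
    have := card_nsmul_le_sum T w (w b) (fun a ha => h4 a ha b hb)
    simpa [h3] using this
  refine ⟨hm, ?_, fun b hb => ?_, fun b hb c hc' hbc => ?_⟩
  · have h6 : g * ∑ u ∈ S \ T, w u ≤ m * ∑ u ∈ T, w u := by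
      rw [mul_sum]
      refine (sum_le_card_nsmul _ _ _ h5).trans ?_
      simpa using Nat.mul_le_mul_right _ hm
    have h7 : m * (∑ u ∈ S \ T, w u + ∑ u ∈ T, w u) ≤ m * I :=
      Nat.mul_le_mul_left _ (by omega)
    nlinarith
  · have h6 := h5 b hb
    have h7 : w b ≤ ∑ u ∈ S \ T, w u := single_le_sum (f := w) (fun _ _ => Nat.zero_le _) hb
    nlinarith
  · have h6 := h5 b hb
    have h6' := h5 c hc'
    have h7 : w b + w c ≤ ∑ u ∈ S \ T, w u := by
      rw [← sum_pair hbc]
      exact sum_le_sum_of_subset (by intro x hx; simp at hx; rcases hx with rfl | rfl <;> assumption)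
    nlinarith

end Pool.Agent.H.MP_aefbf4_co
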