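import Pool.Agent.H.MP_aefbf4_co.A

namespace Pool.Agent.H.MP_aefbf4_co
open Finset

abbrev Ad := List (Fin 7)
abbrev Ed := Ad × Fin 118

def up : Ad → Option Ed
  | [] => none
  | _ :: w => some (w, 117)

def sr (e : Ed) : Option Ed :=
  if e.2.val = 0 then up e.1 else some (e.1, ⟨e.2.val - 1, by have := e.2.2; omega⟩)

def Cmp (M : Finset Ed) (u : Ad) : Prop := ∀ k, (u, k) ∈ M
def AC (N : Finset Ad) : Prop := ∀ u ∈ N, ∀ v ∈ N, u <:+ v → u = v
def ch (u : Ad) : Finset Ad := univ.image (fun c : Fin 7 => c :: u)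
def ex (N : Finset Ad) (u : Ad) : Finset Ad := N.erase u ∪ ch u
def W (M : Finset Ed) (N : Finset Ad) : ℕ := (M.filter (fun e => ∃ u ∈ N, u <:+ e.1)).card
def box (u : Ad) : Finset Ed := {u} ×ˢ univ

theorem mem_box {u : Ad} {e : Ed} : e ∈ box u ↔ e.1 = u := by
  rw [box, mem_product]; simp
theorem card_box (u : Ad) : (box u).card = 118 := by simp [box]
theorem mem_ch {u v : Ad} : v ∈ ch u ↔ ∃ c, v = c :: u := by simp [ch, eq_comm]
theorem card_ch (u : Ad) : (ch u).card = 7 := by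
  rw [ch, card_image_of_injective _ (fun a b h => by simpa using h)]; simp
theorem mem_ex {N : Finset Ad} {u v : Ad} : v ∈ ex N u ↔ (v ≠ u ∧ v ∈ N) ∨ ∃ c, v = c :: u := by
  simp [ex, mem_ch]
theorem AC.sub {N N' : Finset Ad} (h : AC N) (h' : N' ⊆ N) : AC N' :=
  fun u hu v hv => h u (h' hu) v (h' hv)
theorem not_cons_suf (c : Fin 7) (u : Ad) : ¬ (c :: u) <:+ u := fun h => by
  have := h.length_le; simp at this
theorem AC.eq {N : Finset Ad} (h : AC N) {u v x : Ad} (hu : u ∈ N) (hv : v ∈ N) (h1 : u <:+ x)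
    (h2 : v <:+ x) : u = v := by
  rcases List.suffix_or_suffix_of_suffix h1 h2 with h3 | h3
  · exact h u hu v hv h3
  · exact (h v hv u hu h3).symm

theorem ac_ch (u : Ad) : AC (ch u) := by
  intro v hv w hw h
  obtain ⟨c, rfl⟩ := mem_ch.1 hv
  obtain ⟨d, rfl⟩ := mem_ch.1 hw
  exact h.eq_of_length (by simp)

theorem ex_ac {N : Finset Ad} {u : Ad} (h : AC N) (hu : u ∈ N) : AC (ex N u) := by
  intro v hv w hw hs
  rcases mem_ex.1 hv with ⟨h1, h2⟩ | ⟨c, rfl⟩ <;> rcases mem_ex.1 hw with ⟨h3, h4⟩ | ⟨d, rfl⟩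
  · exact h v h2 w h4 hs
  · exact (h1 (h.eq h2 hu hs (List.suffix_cons _ _))).elim
  · exact (h3 (h u hu w h4 ((List.suffix_cons _ _).trans hs)).symm).elim
  · exact hs.eq_of_length (by simp)

theorem ex_card {N : Finset Ad} {u : Ad} (h : AC N) (hu : u ∈ N) : (ex N u).card = N.card + 6 := by
  have := card_pos.2 ⟨u, hu⟩
  rw [ex, card_union_of_disjoint, card_erase_of_mem hu, card_ch]; · omega
  rw [disjoint_left]
  intro v hv hv'
  obtain ⟨c, rfl⟩ := mem_ch.1 hv'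
  exact (mem_erase.1 hv).1 (h u hu _ (mem_erase.1 hv).2 (List.suffix_cons _ _)).symm

theorem W_sum {N : Finset Ad} (M : Finset Ed) (h : AC N) : ∑ u ∈ N, W M {u} = W M N := by
  have : M.filter (fun e => ∃ u ∈ N, u <:+ e.1) =
      N.biUnion (fun u => M.filter (fun e => ∃ v ∈ ({u} : Finset Ad), v <:+ e.1)) := by
    ext e; simp only [mem_filter, mem_biUnion, mem_singleton, exists_eq_left]; tauto
  rw [W, this, card_biUnion]; · rfl
  intro u hu v hv huv
  rw [Function.onFun, disjoint_left]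
  intro e h1 h2
  simp only [mem_filter, mem_singleton, exists_eq_left] at h1 h2
  exact huv (h.eq hu hv h1.2 h2.2)

theorem W_le (M : Finset Ed) (N : Finset Ad) : W M N ≤ M.card := card_filter_le _ _

theorem W_union (M a : Finset Ed) (N : Finset Ad) : W (M ∪ a) N ≤ W M N + a.card := by
  rw [W, filter_union]
  exact (card_union_le _ _).trans (Nat.add_le_add_left (card_filter_le _ _) _)

theorem W_ex {N : Finset Ad} {u : Ad} {M : Finset Ed} (h : AC N) (hu : u ∈ N) (hc : Cmp M u) :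
    W M (ex N u) + 118 ≤ W M N := by
  rw [← card_box u, W, ← card_union_of_disjoint]
  · refine card_le_card (fun e he => ?_)
    rcases mem_union.1 he with he | he
    · obtain ⟨h1, v, hv, h2⟩ := mem_filter.1 he
      refine mem_filter.2 ⟨h1, ?_⟩
      rcases mem_ex.1 hv with ⟨-, h3⟩ | ⟨c, rfl⟩
      · exact ⟨v, h3, h2⟩
      · exact ⟨u, hu, (List.suffix_cons _ _).trans h2⟩
    · have := mem_box.1 he
      subst this
      exact mem_filter.2 ⟨hc e.2, _, hu, List.suffix_refl _⟩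
  · rw [disjoint_left]
    intro e he he'
    have := mem_box.1 he'
    subst this
    obtain ⟨h1, v, hv, h2⟩ := mem_filter.1 he
    rcases mem_ex.1 hv with ⟨h4, h3⟩ | ⟨c, rfl⟩
    · exact h4 (h v h3 _ hu h2)
    · exact not_cons_suf _ _ h2

theorem two {N : Finset Ad} {v w : Ad} {M : Finset Ed} (h : v ≠ w) (hv : Cmp M v) (hw : Cmp M w)
    (h1 : ∃ u ∈ N, u <:+ v) (h2 : ∃ u ∈ N, u <:+ w) : 236 ≤ W M N := by
  have : (box v ∪ box w).card = 236 := by
    rw [card_union_of_disjoint, card_box, card_box]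
    rw [disjoint_left]
    intro e a b
    exact h ((mem_box.1 a).symm.trans (mem_box.1 b))
  rw [← this]
  refine card_le_card (fun e he => mem_filter.2 ?_)
  rcases mem_union.1 he with he | he <;> have := mem_box.1 he <;> subst this
  · exact ⟨hv e.2, h1⟩
  · exact ⟨hw e.2, h2⟩

theorem cut (T : Finset Ad) (M : Finset Ed) (h : ∀ u ∈ T, ¬ Cmp M u) :
    ∃ K : Finset Ed, K.card ≤ T.card ∧ Disjoint K M ∧ ∀ u ∈ T, ∃ k, (u, k) ∈ K := by
  have : ∀ u, ∃ k, u ∈ T → (u, k) ∉ M := fun u => by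
    by_cases hu : u ∈ T
    · obtain ⟨k, hk⟩ := not_forall.1 (h u hu)
      exact ⟨k, fun _ => hk⟩
    · exact ⟨0, fun x => (hu x).elim⟩
  choose f hf using this
  refine ⟨T.image (fun u => (u, f u)), card_image_le, ?_, fun u hu => ⟨f u, mem_image_of_mem _ hu⟩⟩
  rw [disjoint_left]
  intro e he
  obtain ⟨u, hu, rfl⟩ := mem_image.1 he
  exact hf u hu

structure Inv (t : Ad) (C N : Finset Ad) (B : Finset Ed) : Prop where
  tC : t ∈ C
  par : ∀ u ∈ C, u ≠ t → ∃ c w, u = c :: w ∧ w ∈ C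
  fr : ∀ u ∈ C, ∀ c, c :: u ∈ C ∨ c :: u ∈ N ∨ ∃ k, (c :: u, k) ∈ B
  npar : ∀ u ∈ N, ∃ c w, u = c :: w ∧ w ∈ C
  ac : AC N

theorem step {t : Ad} {C N : Finset Ad} {B M : Finset Ed} (h : Inv t C N B) (g m I : ℕ)
    (h1 : N.card ≤ g) (h2 : N.card + 6 ≤ g + m) (h3 : W M N ≤ I + 118)
    (h4 : ∀ u ∈ N, ∀ v ∈ N, W M {u, v} < 236) :
    ∃ (K : Finset Ed) (C' N' : Finset Ad), K.card ≤ g ∧ Disjoint K M ∧ C ⊆ C' ∧
      (∀ u ∈ N, Cmp M u → u ∈ C') ∧ (∀ B', B ⊆ B' → K ⊆ B' → Inv t C' N' B') ∧ N'.card ≤ m ∧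
      (g + m) * W M N' ≤ m * I ∧ ∀ u ∈ N', ∀ v ∈ N', (g + 2) * W M {u, v} ≤ 2 * I := by
  by_cases hc : ∃ u ∈ N, Cmp M u
  · obtain ⟨u, hu, hc⟩ := hc
    have a1 := ex_ac h.ac hu
    have a2 := ex_card h.ac hu
    have a3 := W_ex h.ac hu hc
    have a4 : ∀ v ∈ ex N u, ¬ Cmp M v := fun v hv hcv => by
      rcases mem_ex.1 hv with ⟨b1, b2⟩ | ⟨c, rfl⟩
      · have := two (N := {u, v}) b1 hcv hc ⟨v, by simp, List.suffix_refl _⟩
          ⟨u, by simp, List.suffix_refl _⟩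
        have := h4 u hu v b2
        omega
      · have := two (N := {u, u}) (List.cons_ne_self c u) hcv hc
          ⟨u, by simp, List.suffix_cons _ _⟩ ⟨u, by simp, List.suffix_refl _⟩
        have := h4 u hu u hu
        omega
    obtain ⟨T, b1, b2, b3, b4, b5, b6⟩ := avg (fun v => W M {v}) (ex N u) g m I (by omega)
      (by rw [W_sum M a1]; omega)
    obtain ⟨K, c1, c2, c3⟩ := cut T M (fun v hv => a4 v (b1 hv))
    rw [W_sum M (a1.sub sdiff_subset)] at b4
    refine ⟨K, insert u C, ex N u \ T, by omega, c2, subset_insert _ _, fun v hv hcv => ?_,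
      fun B' d1 d2 => ⟨mem_insert_of_mem h.tC, fun v hv hvt => ?_, fun v hv c => ?_,
        fun v hv => ?_, a1.sub sdiff_subset⟩, b3, b4, fun v hv w hw => ?_⟩
    · by_cases e : v = u
      · simp [e]
      · exact (a4 v (mem_ex.2 (Or.inl ⟨e, hv⟩)) hcv).elim
    · rcases mem_insert.1 hv with rfl | hv
      · obtain ⟨c, w, e1, e2⟩ := h.npar v hu
        exact ⟨c, w, e1, mem_insert_of_mem e2⟩
      · obtain ⟨c, w, e1, e2⟩ := h.par v hv hvt
        exact ⟨c, w, e1, mem_insert_of_mem e2⟩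
    · have key : c :: v ∈ ex N u → c :: v ∈ insert u C ∨ c :: v ∈ ex N u \ T ∨
          ∃ k, (c :: v, k) ∈ B' := fun x => by
        by_cases y : c :: v ∈ T
        · obtain ⟨k, hk⟩ := c3 _ y
          exact Or.inr (Or.inr ⟨k, d2 hk⟩)
        · exact Or.inr (Or.inl (mem_sdiff.2 ⟨x, y⟩))
      rcases mem_insert.1 hv with rfl | hv
      · exact key (mem_ex.2 (Or.inr ⟨c, rfl⟩))
      · rcases h.fr v hv c with x | x | ⟨k, x⟩
        · exact Or.inl (mem_insert_of_mem x)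
        · by_cases e : c :: v = u
          · exact Or.inl (by simp [e])
          · exact key (mem_ex.2 (Or.inl ⟨e, x⟩))
        · exact Or.inr (Or.inr ⟨k, d1 x⟩)
    · rcases mem_ex.1 (mem_sdiff.1 hv).1 with ⟨-, x⟩ | ⟨c, rfl⟩
      · obtain ⟨c, w, e1, e2⟩ := h.npar v x
        exact ⟨c, w, e1, mem_insert_of_mem e2⟩
      · exact ⟨c, u, rfl, mem_insert_self _ _⟩
    · by_cases e : v = w
      · subst e
        have := b5 v hv
        rw [pair_eq_singleton]
        nlinarith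
      · have := b6 v hv w hw e
        have x : AC {v, w} := a1.sub (by
          intro y hy
          simp only [mem_insert, mem_singleton] at hy
          rcases hy with rfl | rfl
          · exact (mem_sdiff.1 hv).1
          · exact (mem_sdiff.1 hw).1)
        rwa [← W_sum M x, sum_pair e]
  · obtain ⟨K, c1, c2, c3⟩ := cut N M (fun v hv x => hc ⟨v, hv, x⟩)
    refine ⟨K, C, ∅, by omega, c2, Subset.rfl, fun v hv x => (hc ⟨v, hv, x⟩).elim,
      fun B' d1 d2 => ⟨h.tC, h.par, fun v hv c => ?_, by simp, fun _ => by simp⟩, by simp,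
      by simp [W], by simp⟩
    rcases h.fr v hv c with x | x | ⟨k, x⟩
    · exact Or.inl x
    · obtain ⟨k, hk⟩ := c3 _ x
      exact Or.inr (Or.inr ⟨k, d2 hk⟩)
    · exact Or.inr (Or.inr ⟨k, d1 x⟩)

end Pool.Agent.H.MP_aefbf4_co
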