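import Pool.Agent.H.MP_aefbf4_co.B

namespace Pool.Agent.H.MP_aefbf4_co
open Finset

def Root (v : Option Ed) (t : Ad) (j : Fin 118) (C : Finset Ad) (M : Finset Ed) : Prop :=
  (v = none ∧ t = [] ∧ j = 0) ∨ ∃ w i, v = some (w, i) ∧ ((w = t ∧ j ≤ i) ∨
    ∃ c u, w = c :: u ∧ u ∈ C ∧ ∀ k ≤ i, (w, k) ∈ M)

theorem fin_comp {v : Option Ed} {t : Ad} {j : Fin 118} {C : Finset Ad} {M B : Finset Ed}
    (h : Inv t C ∅ B) (hd : Disjoint M B) (hr : Root v t j C M)
    (hj : (t, j) ∈ B ∨ (t = [] ∧ j = 0)) : (Comp sr some B v).Finite := by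
  let S : Option Ed → Prop := fun x => (x = none ∧ t = [] ∧ j = 0) ∨ ∃ u k, x = some (u, k) ∧
    ((u = t ∧ j ≤ k) ∨ (u ∈ C ∧ u ≠ t) ∨ ∃ c w, u = c :: w ∧ w ∈ C ∧ ∀ k' ≤ k, (u, k') ∉ B)
  have top : ∀ w ∈ C, S (some (w, 117)) := fun w hw => by
    refine Or.inr ⟨w, 117, rfl, ?_⟩
    by_cases e : w = t
    · exact Or.inl ⟨e, by have := j.2; rw [Fin.le_def]; show j.val ≤ 117; omega⟩
    · exact Or.inr (Or.inl ⟨hw, e⟩)
  have cl : ∀ e ∉ B, (S (sr e) ↔ S (some e)) := by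
    rintro ⟨u, k⟩ he
    by_cases hk : k.val = 0
    · have hk' : k = 0 := Fin.ext hk
      subst hk'
      have e1 : sr (u, 0) = up u := by simp [sr]
      rw [e1]
      constructor
      · intro hs
        cases u with
        | nil =>
          rcases hs with ⟨-, a, b⟩ | ⟨_, _, a, -⟩
          · exact Or.inr ⟨[], 0, rfl, Or.inl ⟨a.symm, b.le⟩⟩
          · simp [up] at a
        | cons c w =>
          have hw : w ∈ C := by
            rcases hs with ⟨a, -⟩ | ⟨u', k', a, b⟩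
            · simp [up] at a
            · simp only [up, Option.some.injEq, Prod.mk.injEq] at a
              obtain ⟨rfl, rfl⟩ := a
              rcases b with ⟨b, -⟩ | ⟨b, -⟩ | ⟨c', w', rfl, b, b'⟩
              · exact b ▸ h.tC
              · exact b
              · rcases h.fr w' b c' with x | x | ⟨k, x⟩
                · exact x
                · simp at x
                · exact (b' k (by have := k.2; rw [Fin.le_def]; show k.val ≤ 117; omega) x).elim
          refine Or.inr ⟨_, 0, rfl, Or.inr (Or.inr ⟨c, w, rfl, hw, fun k' hk' => ?_⟩)⟩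
          rwa [Fin.le_zero_iff.1 hk']
      · rintro (⟨a, -⟩ | ⟨u', k', a, b⟩)
        · simp at a
        simp only [Option.some.injEq, Prod.mk.injEq] at a
        obtain ⟨rfl, rfl⟩ := a
        rcases b with ⟨rfl, b⟩ | ⟨b, b'⟩ | ⟨c', w', rfl, b, b'⟩
        · have := Fin.le_zero_iff.1 b
          subst this
          rcases hj with x | ⟨rfl, -⟩
          · exact (he x).elim
          · exact Or.inl ⟨rfl, rfl, rfl⟩
        · obtain ⟨c, w, rfl, x⟩ := h.par u b b'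
          exact top w x
        · exact top _ b
    · have e1 : sr (u, k) = some (u, ⟨k.val - 1, by have := k.2; omega⟩) := by simp [sr, hk]
      rw [e1]
      constructor
      · rintro (⟨a, -⟩ | ⟨u', k', a, b⟩)
        · simp at a
        simp only [Option.some.injEq, Prod.mk.injEq] at a
        obtain ⟨rfl, rfl⟩ := a
        refine Or.inr ⟨u, k, rfl, ?_⟩
        rcases b with ⟨b, b'⟩ | b | ⟨c', w', e, b, b'⟩
        · exact Or.inl ⟨b, by rw [Fin.le_def] at b' ⊢; simp at b'; omega⟩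
        · exact Or.inr (Or.inl b)
        · refine Or.inr (Or.inr ⟨c', w', e, b, fun k' hk' => ?_⟩)
          by_cases x : k' = k
          · exact x ▸ he
          · refine b' k' ?_
            rw [Fin.le_def] at hk' ⊢
            have : k'.val ≠ k.val := fun y => x (Fin.ext y)
            simp; omega
      · rintro (⟨a, -⟩ | ⟨u', k', a, b⟩)
        · simp at a
        simp only [Option.some.injEq, Prod.mk.injEq] at a
        obtain ⟨rfl, rfl⟩ := a
        refine Or.inr ⟨u, _, rfl, ?_⟩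
        rcases b with ⟨rfl, b'⟩ | b | ⟨c', w', e, b, b'⟩
        · refine Or.inl ⟨rfl, ?_⟩
          have : j.val ≠ k.val := fun y => by
            have := Fin.ext y
            subst this
            rcases hj with x | ⟨-, x⟩
            · exact he x
            · exact hk (by rw [x]; rfl)
          rw [Fin.le_def] at b' ⊢; simp; omega
        · exact Or.inr (Or.inl b)
        · exact Or.inr (Or.inr ⟨c', w', e, b, fun k' hk' => b' k' (by
            rw [Fin.le_def] at hk' ⊢; simp at hk'; omega)⟩)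
  have hv : S v := by
    rcases hr with a | ⟨w, i, a, b | ⟨c, u, b1, b2, b3⟩⟩
    · exact Or.inl a
    · exact Or.inr ⟨w, i, a, Or.inl b⟩
    · exact Or.inr ⟨w, i, a, Or.inr (Or.inr ⟨c, u, b1, b2,
        fun k hk => disjoint_left.1 hd (b3 k hk)⟩)⟩
  have hS : ∀ x ∈ Comp sr some B v, S x := by
    intro x hx
    induction hx with
    | refl => exact hv
    | tail _ h2 ih =>
      obtain ⟨e, he, ⟨rfl, rfl⟩ | ⟨rfl, rfl⟩⟩ := h2
      · exact (cl e he).1 ih
      · exact (cl e he).2 ih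
  refine (insert none (((C ∪ C.biUnion ch) ×ˢ (univ : Finset (Fin 118))).image some)
    : Finset (Option Ed)).finite_toSet.subset (fun x hx => ?_)
  rcases hS x hx with ⟨a, -⟩ | ⟨u, k, rfl, b⟩
  · simp [a]
  · refine mem_coe.2 (mem_insert_of_mem (mem_image_of_mem _ (mem_product.2 ⟨?_, mem_univ _⟩)))
    rcases b with ⟨rfl, -⟩ | ⟨b, -⟩ | ⟨c, w, rfl, b, -⟩
    · exact mem_union_left _ h.tC
    · exact mem_union_left _ b
    · exact mem_union_right _ (mem_biUnion.2 ⟨w, b, mem_ch.2 ⟨c, rfl⟩⟩)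

theorem first (v : Option Ed) (M : Finset Ed) (hM : M.card < 236) :
    ∃ t j, ((t, j) ∉ M ∨ (t = [] ∧ j = 0)) ∧ ∀ C : Finset Ad, t ∈ C →
      (∀ u ∈ ch t, Cmp M u → u ∈ C) → Root v t j C M := by
  rcases v with _ | ⟨w, i⟩
  · exact ⟨[], 0, Or.inr ⟨rfl, rfl⟩, fun _ _ _ => Or.inl ⟨rfl, rfl, rfl⟩⟩
  by_cases h1 : ∀ k ≤ i, (w, k) ∈ M
  swap
  · push Not at h1
    obtain ⟨k, a, b⟩ := h1
    exact ⟨w, k, Or.inl b, fun _ _ _ => Or.inr ⟨w, i, rfl, Or.inl ⟨rfl, a⟩⟩⟩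
  rcases w with _ | ⟨c, w⟩
  · exact ⟨[], 0, Or.inr ⟨rfl, rfl⟩, fun _ _ _ => Or.inr ⟨[], i, rfl, Or.inl ⟨rfl, Fin.zero_le _⟩⟩⟩
  by_cases h2 : Cmp M w
  swap
  · obtain ⟨k, b⟩ := not_forall.1 h2
    exact ⟨w, k, Or.inl b, fun C x _ => Or.inr ⟨_, i, rfl, Or.inr ⟨c, w, rfl, x, h1⟩⟩⟩
  rcases w with _ | ⟨d, w⟩
  · exact ⟨[], 0, Or.inr ⟨rfl, rfl⟩, fun C x _ => Or.inr ⟨_, i, rfl, Or.inr ⟨c, [], rfl, x, h1⟩⟩⟩
  have h3 : ¬ Cmp M w := fun h3 => by
    have := two (N := {w}) (List.cons_ne_self d w) h2 h3 ⟨w, by simp, List.suffix_cons _ _⟩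
      ⟨w, by simp, List.suffix_refl _⟩
    have := W_le M {w}
    omega
  obtain ⟨k, b⟩ := not_forall.1 h3
  exact ⟨w, k, Or.inl b, fun C _ y => Or.inr ⟨_, i, rfl, Or.inr ⟨c, _, rfl,
    y _ (mem_ch.2 ⟨d, rfl⟩) h2, h1⟩⟩⟩

theorem Root.mono {v : Option Ed} {t : Ad} {j : Fin 118} {C C' : Finset Ad} {M M' : Finset Ed}
    (h : Root v t j C M) (h1 : C ⊆ C') (h2 : M ⊆ M') : Root v t j C' M' := by
  rcases h with a | ⟨w, i, a, b | ⟨c, u, b1, b2, b3⟩⟩
  · exact Or.inl a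
  · exact Or.inr ⟨w, i, a, Or.inl b⟩
  · exact Or.inr ⟨w, i, a, Or.inr ⟨c, u, b1, h1 b2, fun k hk => h2 (b3 k hk)⟩⟩

theorem dj {p q : ℕ} {M B a b : Finset Ed} (h : Disjoint M B) (ha : Legal p a M B)
    (hb : Legal q b B (M ∪ a)) : Legal q b (M ∪ a) B ∧ Disjoint (M ∪ a) (B ∪ b) := by
  refine ⟨⟨hb.1, union_comm B _ ▸ hb.2⟩, ?_⟩
  have h1 := ha.2
  have h2 := hb.2
  simp only [disjoint_union_left, disjoint_union_right] at h1 h2 ⊢
  exact ⟨⟨h, h1.2⟩, h2.2.1.symm, h2.2.2.symm⟩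

theorem breaker (v : Option Ed) : BreakerWins sr some 208 8 v ∅ := by
  refine bw _ _ _ _ _ _ (fun k M B => if k = 0 then M = ∅ ∧ B = ∅ else Disjoint M B ∧
    ∃ t j C N, Inv t C N B ∧ Root v t j C M ∧ ((t, j) ∈ B ∨ (t = [] ∧ j = 0)) ∧
      N.card + 2 * k ≤ 8 ∧ W M N ≤ 45 ∧ ∀ u ∈ N, ∀ w ∈ N, W M {u, w} ≤ 27) 4 ?_ ?_ (by simp)
  · intro M B h
    rw [if_neg (by omega)] at h
    obtain ⟨h0, t, j, C, N, h1, h2, h3, h4, -⟩ := h
    have : N = ∅ := card_eq_zero.1 (by omega)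
    subst this
    exact fin_comp h1 h0 h2 h3
  intro k hk M B h a ha
  simp only [if_neg (Nat.add_one_ne_zero k)]
  have hc := ha.1
  by_cases k0 : k = 0
  · rw [if_pos k0] at h
    obtain ⟨rfl, rfl⟩ := h
    subst k0
    obtain ⟨t, j, h1, h2⟩ := first v (∅ ∪ a) (by simp [hc])
    have hw : ∀ N, W (∅ ∪ a) N ≤ 208 := fun N => (W_le _ _).trans (by simp [hc])
    have hI : Inv t {t} (ch t) ∅ := ⟨by simp, by simp, fun u hu c => by
      rw [mem_singleton.1 hu]; exact Or.inr (Or.inl (mem_ch.2 ⟨c, rfl⟩)), fun u hu => by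
      obtain ⟨c, e⟩ := mem_ch.1 hu; exact ⟨c, t, e, by simp⟩, ac_ch t⟩
    obtain ⟨K, C', N', c1, c2, c3, c4, c5, c6, c7, c8⟩ := step (M := ∅ ∪ a) hI 7 6 90
      (card_ch t).le (by rw [card_ch]) (hw _) (fun u _ w _ => by have := hw {u, w}; omega)
    obtain ⟨b, d1, d2⟩ := pad 8 (K ∪ ({(t, j)} \ (∅ ∪ a))) ∅ (∅ ∪ a) (by
      have := card_union_le K ({(t, j)} \ (∅ ∪ a))
      have := card_le_card (sdiff_subset (s := {(t, j)}) (t := ∅ ∪ a))
      rw [card_singleton] at this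
      rw [sdiff_empty]; omega) (disjoint_union_left.2 ⟨c2, sdiff_disjoint⟩)
    obtain ⟨e1, e2⟩ := dj (by simp) ha d1
    refine ⟨b, e1, e2, t, j, C', N', c5 _ (empty_subset _) (subset_union_left.trans d2),
      h2 C' (c3 (by simp)) c4, h1.imp_left (fun x => d2 (mem_union_right _ ?_)), by omega, by omega,
      fun u hu w hw => by have := c8 u hu w hw; omega⟩
    exact mem_sdiff.2 ⟨by simp, x⟩
  · rw [if_neg k0] at h
    obtain ⟨h0, t, j, C, N, h1, h2, h3, h4, h5, h6⟩ := h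
    obtain ⟨K, C', N', c1, c2, c3, c4, c5, c6, c7, c8⟩ := step (M := M ∪ a) h1 8 (6 - 2 * k) 135
      (by omega) (by omega) (by have := W_union M a N; omega)
      (fun u hu w hw => by have := W_union M a {u, w}; have := h6 u hu w hw; omega)
    obtain ⟨b, d1, d2⟩ := pad 8 K B (M ∪ a) ((card_le_card sdiff_subset).trans c1) c2
    obtain ⟨e1, e2⟩ := dj h0 ha d1
    refine ⟨b, e1, e2, t, j, C', N', c5 _ subset_union_left d2, h2.mono c3 subset_union_left,
      h3.imp_left (fun x => mem_union_left _ x), by omega, ?_,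
      fun u hu w hw => by have := c8 u hu w hw; omega⟩
    have : 1 ≤ k := by omega
    interval_cases k <;> omega

end Pool.Agent.H.MP_aefbf4_co
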