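import Mathlib

namespace Pool.Agent.H.MP_aefbf4_co

variable {V E : Type} [DecidableEq E]

/-- in the multigraph whose edge e has ends s e and t e: x and y are joined by an edge outside B -/
def Adj (s t : E → V) (B : Finset E) (x y : V) : Prop :=
  ∃ e, e ∉ B ∧ ((s e = x ∧ t e = y) ∨ (s e = y ∧ t e = x))

/-- the component of v in the subgraph of all edges outside B -/
def Comp (s t : E → V) (B : Finset E) (v : V) : Set V :=
  {x | Relation.ReflTransGen (Adj s t B) v x}

/-- c is a set of exactly k edges, none of them in M or B -/
def Legal (k : ℕ) (c M B : Finset E) : Prop := c.card = k ∧ Disjoint c (M ∪ B)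

/-- edges of Maker and of Breaker after the listed Maker moves (latest first), when Maker has
head start F and Breaker answers by the strategy σ -/
def pos (F : Finset E) (σ : List (Finset E) → Finset E) : List (Finset E) → Finset E × Finset E
  | [] => (F, ∅)
  | x :: l => ((pos F σ l).1 ∪ x, (pos F σ l).2 ∪ σ (x :: l))

/-- the first n moves of Maker, latest first -/
def hist (a : ℕ → Finset E) : ℕ → List (Finset E)
  | 0 => []
  | n + 1 => a n :: hist a n

/-- Breaker has a winning strategy in the (p,q)-percolation game with root v and head start F -/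
def BreakerWins (s t : E → V) (p q : ℕ) (v : V) (F : Finset E) : Prop :=
  ∃ σ : List (Finset E) → Finset E, ∀ a : ℕ → Finset E,
    (∀ n, Legal p (a n) (pos F σ (hist a n)).1 (pos F σ (hist a n)).2) →
    ∃ n, (∀ k < n, Legal q (σ (hist a (k + 1))) ((pos F σ (hist a k)).1 ∪ a k)
        (pos F σ (hist a k)).2) ∧ (Comp s t (pos F σ (hist a n)).2 v).Finite

end Pool.Agent.H.MP_aefbf4_co
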