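import Pool.Agent.H.MP_aefbf4_co.C

namespace Pool.Agent.H.MP_aefbf4_co
open Finset

theorem reach (B : Finset Ed) (v : Ad) (h : ∀ x, x <:+ v → ∀ k, (x, k) ∉ B) (k : Fin 118) :
    some (v, k) ∈ Comp sr some B none := by
  have col : ∀ v : Ad, (∀ k, (v, k) ∉ B) → up v ∈ Comp sr some B none →
      ∀ k, some (v, k) ∈ Comp sr some B none := by
    rintro v h1 h2 ⟨k, hk⟩
    induction k with
    | zero => exact h2.tail ⟨(v, 0), h1 _, Or.inl ⟨by simp [sr], rfl⟩⟩
    | succ k ih => exact (ih (by omega)).tail ⟨(v, ⟨k + 1, hk⟩), h1 _, Or.inl ⟨by simp [sr], rfl⟩⟩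
  induction v generalizing k with
  | nil => exact col _ (h _ (List.suffix_refl _)) Relation.ReflTransGen.refl k
  | cons c w ih =>
    exact col _ (h _ (List.suffix_refl _)) (ih (fun x hx => h x (hx.trans (List.suffix_cons _ _))) _) k

theorem conn (v : Option Ed) : Comp sr some (∅ : Finset Ed) v = Set.univ := by
  have h1 : ∀ x, x ∈ Comp sr some (∅ : Finset Ed) none := by
    rintro (_ | ⟨v, k⟩)
    · exact Relation.ReflTransGen.refl
    · exact reach _ _ (by simp) _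
  have h2 : ∀ x y, Relation.ReflTransGen (Adj sr some (∅ : Finset Ed)) x y →
      Relation.ReflTransGen (Adj sr some (∅ : Finset Ed)) y x := by
    intro x y h
    induction h with
    | refl => exact .refl
    | tail _ h ih =>
      obtain ⟨e, a, b⟩ := h
      exact .head ⟨e, a, b.symm⟩ ih
  exact Set.eq_univ_of_forall (fun x => (h2 _ _ (h1 v)).trans (h1 x))

theorem noloop (e : Ed) : sr e ≠ some e := by
  obtain ⟨u, k⟩ := e
  unfold sr
  split_ifs with h
  · cases u with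
    | nil => simp [up]
    | cons c w =>
      simp only [up, ne_eq, Option.some.injEq, Prod.mk.injEq, not_and]
      exact fun x => (List.cons_ne_self c w x.symm).elim
  · simp only [ne_eq, Option.some.injEq, Prod.mk.injEq, true_and, Fin.ext_iff]
    simp only at h
    omega

theorem locfin (v : Option Ed) : {e : Ed | sr e = v ∨ some e = v}.Finite := by
  rcases v with _ | ⟨u, k⟩
  · refine (box []).finite_toSet.subset ?_
    rintro ⟨w, i⟩ (h | h)
    · refine mem_coe.2 (mem_box.2 ?_)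
      unfold sr at h
      split_ifs at h
      cases w with
      | nil => rfl
      | cons c w => simp [up] at h
    · simp at h
  · refine (insert u (ch u) ×ˢ (univ : Finset (Fin 118))).finite_toSet.subset ?_
    rintro ⟨w, i⟩ h
    refine mem_coe.2 (mem_product.2 ⟨?_, mem_univ _⟩)
    rcases h with h | h
    · unfold sr at h
      split_ifs at h
      · cases w with
        | nil => simp [up] at h
        | cons c w =>
          simp only [up, Option.some.injEq, Prod.mk.injEq] at h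
          exact mem_insert_of_mem (mem_ch.2 ⟨c, by rw [h.1]⟩)
      · simp only [Option.some.injEq, Prod.mk.injEq] at h
        simp [h.1]
    · simp only [Option.some.injEq, Prod.mk.injEq] at h
      simp [h.1]

def Good (M B : Finset Ed) (N : Finset Ad) : Prop :=
  AC N ∧ ∀ u ∈ N, (∀ v, v <:+ u → v ≠ u → Cmp M v) ∧ ∀ e ∈ B, ¬ u <:+ e.1

theorem inf_comp {M B : Finset Ed} {N : Finset Ad} (hd : Disjoint M B) (h : Good M B N)
    (hN : 0 < N.card) : ¬ (Comp sr some B none).Finite := by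
  obtain ⟨u, hu⟩ := card_pos.1 hN
  obtain ⟨h1, h2⟩ := h.2 u hu
  refine Set.infinite_of_injective_forall_mem
    (f := fun n : ℕ => (some (List.replicate n 0 ++ u, 0) : Option Ed)) (fun a b e => ?_) (fun n => ?_)
  · simp only [Option.some.injEq, Prod.mk.injEq, and_true] at e
    simpa using congrArg List.length e
  · refine reach _ _ (fun x hx k hk => ?_) _
    rcases List.suffix_or_suffix_of_suffix hx (List.suffix_append _ u) with y | y
    · by_cases e : x = u
      · exact h2 _ hk (e ▸ List.suffix_refl _)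
      · exact disjoint_left.1 hd (h1 x y e k) hk
    · exact h2 _ hk y

theorem Good.ex {M M' B : Finset Ed} {N : Finset Ad} {u : Ad} (h : Good M B N) (hu : u ∈ N)
    (hM : M ⊆ M') (hc : Cmp M' u) : Good M' B (ex N u) := by
  refine ⟨ex_ac h.1 hu, fun w hw => ?_⟩
  rcases mem_ex.1 hw with ⟨-, a⟩ | ⟨c, rfl⟩
  · exact ⟨fun v x y k => hM ((h.2 w a).1 v x y k), (h.2 w a).2⟩
  · refine ⟨fun v x y => ?_, fun e he x => (h.2 u hu).2 e he ((List.suffix_cons _ _).trans x)⟩
    have z := (List.suffix_cons_iff.1 x).resolve_left y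
    by_cases e : v = u
    · exact e ▸ hc
    · exact fun k => hM ((h.2 u hu).1 v z e k)

theorem Good.kill {M B : Finset Ed} {N : Finset Ad} (h : Good M B N) (b : Finset Ed) :
    ∃ N', Good M (B ∪ b) N' ∧ N.card ≤ N'.card + b.card ∧
      ∀ G ⊆ N, ∃ G' ⊆ G, G' ⊆ N' ∧ G.card ≤ G'.card + b.card := by
  have key : ∀ G ⊆ N, G.card ≤ (G.filter (fun u => ∀ e ∈ b, ¬ u <:+ e.1)).card + b.card := by
    intro G hG
    rw [← card_filter_add_card_filter_not (s := G) (fun u => ∀ e ∈ b, ¬ u <:+ e.1)]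
    refine Nat.add_le_add_left (le_trans ?_ (W_le b (G.filter
      (fun u => ¬ ∀ e ∈ b, ¬ u <:+ e.1)))) _
    rw [← W_sum b (h.1.sub ((filter_subset _ _).trans hG)), card_eq_sum_ones]
    refine sum_le_sum (fun u hu => card_pos.2 ?_)
    have := (mem_filter.1 hu).2
    push Not at this
    obtain ⟨e, a, c⟩ := this
    exact ⟨e, mem_filter.2 ⟨a, u, by simp, c⟩⟩
  refine ⟨N.filter (fun u => ∀ e ∈ b, ¬ u <:+ e.1), ⟨h.1.sub (filter_subset _ _), fun u hu => ?_⟩,
    key N Subset.rfl, fun G hG => ⟨_, filter_subset _ _, filter_subset_filter _ hG, key G hG⟩⟩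
  obtain ⟨a, c⟩ := mem_filter.1 hu
  refine ⟨(h.2 u a).1, fun e he => ?_⟩
  rcases mem_union.1 he with x | x
  · exact (h.2 u a).2 e x
  · exact c e x

def Lv (M : Finset Ed) (x : ℕ) (u : Ad) : Prop := ∀ k : Fin 118, k.val < x → (u, k) ∈ M

def seg (G : Finset Ad) (x y : ℕ) : Finset Ed :=
  G ×ˢ univ.filter (fun k : Fin 118 => x ≤ k.val ∧ k.val < y)

theorem card_seg (G : Finset Ad) (x y : ℕ) : (seg G x y).card ≤ G.card * (y - x) := by
  rw [seg, card_product, ← Nat.card_Ico]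
  refine Nat.mul_le_mul_left _ (card_le_card_of_injOn Fin.val (fun k hk => ?_) Fin.val_injective.injOn)
  simpa using hk

theorem lv_seg {M M' : Finset Ed} {G : Finset Ad} {x y : ℕ} {u : Ad} (hM : M ⊆ M') (hu : u ∈ G)
    (h : Lv M x u) (h' : seg G x y ⊆ M') : Lv M' y u := fun k hk => by
  by_cases e : k.val < x
  · exact hM (h k e)
  · exact h' (mem_product.2 ⟨hu, by simp; omega⟩)

theorem seg_dj {M B : Finset Ed} {N G : Finset Ad} (h : Good M B N) (hG : G ⊆ N) (x y : ℕ) :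
    Disjoint (seg G x y) B :=
  disjoint_left.2 fun e he hb => (h.2 _ (hG (mem_product.1 he).1)).2 e hb (List.suffix_refl _)

theorem dj' {p q : ℕ} {M B a b : Finset Ed} (h : Disjoint M B) (ha : Legal p a M B)
    (hb : Legal q b (M ∪ a) B) : Disjoint (M ∪ a) (B ∪ b) :=
  (dj h ha ⟨hb.1, union_comm B _ ▸ hb.2⟩).2

theorem prep {M B : Finset Ed} {N G : Finset Ad} {u : Ad} (h : Good M B N) (hG : G ⊆ N)
    (hu : u ∈ N) (huG : u ∉ G) (x y : ℕ) (hl : ∀ w ∈ G, Lv M x w) (hc : G.card * (y - x) ≤ 90) :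
    ∃ a, Legal 208 a M B ∧ ∀ b, Legal 8 b (M ∪ a) B → ∃ N', Good (M ∪ a) (B ∪ b) N' ∧
      N.card ≤ N'.card + 2 ∧ ∃ G' ⊆ N', G.card ≤ G'.card + 8 ∧ ∀ w ∈ G', Lv (M ∪ a) y w := by
  obtain ⟨a, h1, h2⟩ := pad 208 (seg {u} 0 118 ∪ seg G x y) M B (by
    have := card_le_card (sdiff_subset (s := seg {u} 0 118 ∪ seg G x y) (t := M))
    have := card_union_le (seg {u} 0 118) (seg G x y)
    have := card_seg {u} 0 118
    have := card_seg G x y
    simp only [card_singleton] at *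
    omega) (disjoint_union_left.2 ⟨seg_dj h (by simpa) _ _, seg_dj h hG _ _⟩)
  refine ⟨a, h1, fun b hb => ?_⟩
  have c1 : Cmp (M ∪ a) u := fun k => lv_seg (x := 0) (y := 118) subset_union_left
    (mem_singleton_self u) (fun _ x => by omega) (subset_union_left.trans h2) k k.2
  obtain ⟨N', d1, d2, d3⟩ := (h.ex hu subset_union_left c1).kill b
  obtain ⟨G', e1, e2, e3⟩ := d3 G (fun w hw => mem_ex.2 (Or.inl ⟨fun e => huG (e ▸ hw), hG hw⟩))
  have := ex_card h.1 hu
  have := hb.1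
  exact ⟨N', d1, by omega, G', e2, by omega, fun w hw =>
    lv_seg subset_union_left (e1 hw) (hl w (e1 hw)) (subset_union_right.trans h2)⟩

theorem maker : ∃ F, ¬ BreakerWins sr some 208 8 none F := by
  refine ⟨({[], [0], [1]} : Finset Ad) ×ˢ univ, mw _ _ _ _ _ _ (fun M B => Disjoint M B ∧
    ∃ N, Good M B N ∧ (19 ≤ N.card ∨ (17 ≤ N.card ∧ ∃ G ⊆ N, 10 ≤ G.card ∧ ∀ u ∈ G, Lv M 5 u) ∨
      (15 ≤ N.card ∧ ∃ G ⊆ N, 2 ≤ G.card ∧ ∀ u ∈ G, Lv M 14 u))) ?_ ?_ ⟨by simp, ?_⟩⟩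
  · rintro M B ⟨h0, N, h1, h2⟩
    exact inf_comp h0 h1 (by omega)
  · rintro M B ⟨h0, N, h1, h2 | ⟨h2, G, h3, h4, h5⟩ | ⟨h2, G, h3, h4, h5⟩⟩
    · obtain ⟨u, hu⟩ := card_pos.1 (by omega : 0 < N.card)
      obtain ⟨G, g1, g2⟩ := exists_subset_card_eq (s := N.erase u) (n := 18)
        (by rw [card_erase_of_mem hu]; omega)
      obtain ⟨a, a1, a2⟩ := prep h1 (g1.trans (erase_subset _ _)) hu
        (fun x => by simpa using g1 x) 0 5 (fun _ _ _ x => by omega) (by omega)
      refine ⟨a, a1, fun b hb => ⟨dj' h0 a1 hb, ?_⟩⟩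
      obtain ⟨N', b1, b2, G', b3, b4, b5⟩ := a2 b hb
      exact ⟨N', b1, Or.inr (Or.inl ⟨by omega, G', b3, by omega, b5⟩)⟩
    · obtain ⟨G0, g1, g2⟩ := exists_subset_card_eq h4
      obtain ⟨u, hu, hu'⟩ := exists_mem_notMem_of_card_lt_card (s := G0) (t := N) (by omega)
      obtain ⟨a, a1, a2⟩ := prep h1 (g1.trans h3) hu hu' 5 14 (fun w x => h5 w (g1 x)) (by omega)
      refine ⟨a, a1, fun b hb => ⟨dj' h0 a1 hb, ?_⟩⟩
      obtain ⟨N', b1, b2, G', b3, b4, b5⟩ := a2 b hb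
      exact ⟨N', b1, Or.inr (Or.inr ⟨by omega, G', b3, by omega, b5⟩)⟩
    · obtain ⟨G0, g1, g2⟩ := exists_subset_card_eq h4
      obtain ⟨a, a1, a2⟩ := pad 208 (seg G0 14 118) M B (by
        have := card_le_card (sdiff_subset (s := seg G0 14 118) (t := M))
        have := card_seg G0 14 118
        omega) (seg_dj h1 (g1.trans h3) _ _)
      refine ⟨a, a1, fun b hb => ⟨dj' h0 a1 hb, ?_⟩⟩
      have c1 : ∀ u ∈ G0, Cmp (M ∪ a) u := fun u hu k =>
        lv_seg subset_union_left hu (h5 u (g1 hu)) a2 k k.2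
      obtain ⟨u, w, e, rfl⟩ := card_eq_two.1 g2
      have hu : u ∈ N := h3 (g1 (by simp))
      have hw : w ∈ ex N u := mem_ex.2 (Or.inl ⟨e.symm, h3 (g1 (by simp))⟩)
      have d1 := h1.ex hu subset_union_left (c1 u (by simp))
      obtain ⟨N', f1, f2, -⟩ := (d1.ex hw Subset.rfl (c1 w (by simp))).kill b
      have := ex_card h1.1 hu
      have := ex_card d1.1 hw
      have := hb.1
      exact ⟨N', f1, Or.inl (by omega)⟩
  · set F : Finset Ed := ({[], [0], [1]} : Finset Ad) ×ˢ univ with hF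
    have c : ∀ u ∈ ({[], [0], [1]} : Finset Ad), Cmp F u := fun u hu k =>
      mem_product.2 ⟨hu, mem_univ _⟩
    have g0 : Good F ∅ {[]} := ⟨fun u hu v hv _ => by
      rw [mem_singleton.1 hu, mem_singleton.1 hv], fun u hu => by
      rw [mem_singleton.1 hu]; exact ⟨fun v x y => (y (List.suffix_nil.1 x)).elim, by simp⟩⟩
    have m0 : ([] : Ad) ∈ ({[]} : Finset Ad) := by simp
    have g1 := g0.ex m0 Subset.rfl (c _ (by simp))
    have m1 : ([0] : Ad) ∈ ex {[]} [] := mem_ex.2 (Or.inr ⟨0, rfl⟩)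
    have g2 := g1.ex m1 Subset.rfl (c _ (by simp))
    have m2 : ([1] : Ad) ∈ ex (ex {[]} []) [0] :=
      mem_ex.2 (Or.inl ⟨by simp, mem_ex.2 (Or.inr ⟨1, rfl⟩)⟩)
    have g3 := g2.ex m2 Subset.rfl (c _ (by simp))
    refine ⟨_, g3, Or.inl ?_⟩
    rw [ex_card g2.1 m2, ex_card g1.1 m1, ex_card g0.1 m0, card_singleton]

end Pool.Agent.H.MP_aefbf4_co
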